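import Pool.Agent.V8H77.GM.Cross

/-!
# The least upper bound of Gromov's mass of the unit ball of a normed space

For every `o`-symmetric convex body `M` of `ℝᵈ`, Gromov's mass of `M` is at most the volume
`π ^ (d/2) / Γ (d/2 + 1)` of the Euclidean unit ball, with equality exactly for the ellipsoids.
-/

set_option autoImplicit false

open MeasureTheory Set Metric
open scoped Nat

namespace Pool.Agent.Results.MP_77d991_gt.MassSup

/-- An `o`-symmetric convex body: a compact convex set with nonempty interior and `M = -M`. -/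
structure IsSymmBody {d : ℕ} (M : Set (EuclideanSpace ℝ (Fin d))) : Prop where
  compact : IsCompact M
  convex : Convex ℝ M
  interior_nonempty : (interior M).Nonempty
  neg_mem : ∀ x ∈ M, -x ∈ M

/-- The volumes of the cross-polytopes `conv {± v₁, …, ± v_d}` inscribed in `M`, where
`v₁, …, v_d ∈ M` are linearly independent. -/
def crossVolumes {d : ℕ} (M : Set (EuclideanSpace ℝ (Fin d))) : Set ℝ :=
  {t | ∃ v : Fin d → EuclideanSpace ℝ (Fin d), LinearIndependent ℝ v ∧ (∀ i, v i ∈ M) ∧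
    t = (volume (convexHull ℝ (Set.range v ∪ Set.range fun i => -v i))).toReal}

/-- Gromov's mass of `M` for the norm with unit ball `M`: the volume of `M`, divided by the maximal
volume of a cross-polytope inscribed in `M` and multiplied by `2 ^ d / d !`. -/
noncomputable def mass {d : ℕ} (M : Set (EuclideanSpace ℝ (Fin d))) : ℝ :=
  2 ^ d / (d ! : ℝ) * ((volume M).toReal / sSup (crossVolumes M))

open Pool.Agent.V8H77.GM

variable {d : ℕ}

lemma exists_max (_hd : 0 < d) {M : Set (EuclideanSpace ℝ (Fin d))} (h : IsSymmBody M) :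
    ∃ D : ℝ, 0 < D ∧ (∀ v : Fin d → EuclideanSpace ℝ (Fin d), (∀ i, v i ∈ M) → |om d v| ≤ D) ∧
      ∃ v : Fin d → EuclideanSpace ℝ (Fin d), (∀ i, v i ∈ M) ∧ |om d v| = D := by
  have hcomp : IsCompact (Set.pi univ fun _ : Fin d => M) := isCompact_univ_pi fun _ => h.compact
  obtain ⟨x0, hx0⟩ := h.interior_nonempty
  have hne : (Set.pi univ fun _ : Fin d => M).Nonempty := ⟨fun _ => x0, fun _ _ =>
    interior_subset hx0⟩
  obtain ⟨v, hv, hmax⟩ := hcomp.exists_isMaxOn hne (om_continuous (d := d)).abs.continuousOn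
  have hbound : ∀ w : Fin d → EuclideanSpace ℝ (Fin d), (∀ i, w i ∈ M) → |om d w| ≤ |om d v| :=
    fun w hw => hmax (fun i _ => hw i)
  refine ⟨|om d v|, ?_, hbound, v, fun i => hv i (mem_univ i), rfl⟩
  -- positivity
  rcases (abs_nonneg (om d v)).lt_or_eq with h0 | h0
  · exact h0
  · exfalso
    have h1 := vol_le h.compact h.convex h.interior_nonempty hbound
    rw [← h0] at h1
    simp only [ENNReal.ofReal_zero, zero_mul, nonpos_iff_eq_zero] at h1
    exact ((isOpen_interior.measure_pos volume h.interior_nonempty).trans_le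
      (measure_mono interior_subset)).ne' h1

lemma crossVolumes_eq (hd : 0 < d) (M : Set (EuclideanSpace ℝ (Fin d))) :
    crossVolumes M = {t | ∃ v : Fin d → EuclideanSpace ℝ (Fin d), om d v ≠ 0 ∧ (∀ i, v i ∈ M) ∧
      t = 2 ^ d / (d ! : ℝ) * |om d v|} := by
  have key : ∀ v : Fin d → EuclideanSpace ℝ (Fin d),
      (volume (convexHull ℝ (Set.range v ∪ Set.range fun i => -v i))).toReal =
        2 ^ d / (d ! : ℝ) * |om d v| := by
    intro v
    have h1 := volume_cross hd v
    unfold cross at h1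
    rw [h1, ENNReal.toReal_ofReal (by positivity)]
  ext t
  constructor
  · rintro ⟨v, h1, h2, h3⟩
    exact ⟨v, om_of_li h1, h2, by rw [h3, key]⟩
  · rintro ⟨v, h1, h2, h3⟩
    exact ⟨v, li_of_om h1, h2, by rw [h3, key]⟩

lemma isGreatest_of_max (hd : 0 < d) {M : Set (EuclideanSpace ℝ (Fin d))} {D : ℝ} (hD : 0 < D)
    (h1 : ∀ v : Fin d → EuclideanSpace ℝ (Fin d), (∀ i, v i ∈ M) → |om d v| ≤ D)
    (h2 : ∃ v : Fin d → EuclideanSpace ℝ (Fin d), (∀ i, v i ∈ M) ∧ |om d v| = D) :
    IsGreatest (crossVolumes M) (2 ^ d / (d ! : ℝ) * D) := by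
  rw [crossVolumes_eq hd]
  constructor
  · obtain ⟨v, hv, hvD⟩ := h2
    refine ⟨v, ?_, hv, by rw [hvD]⟩
    intro h0
    rw [h0] at hvD
    simp at hvD
    linarith
  · rintro t ⟨v, -, hv, rfl⟩
    exact mul_le_mul_of_nonneg_left (h1 v hv) (by positivity)

lemma mass_eq (hd : 0 < d) {M : Set (EuclideanSpace ℝ (Fin d))} {D : ℝ} (hD : 0 < D)
    (h1 : ∀ v : Fin d → EuclideanSpace ℝ (Fin d), (∀ i, v i ∈ M) → |om d v| ≤ D)
    (h2 : ∃ v : Fin d → EuclideanSpace ℝ (Fin d), (∀ i, v i ∈ M) ∧ |om d v| = D) :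
    mass M = (volume M).toReal / D := by
  unfold mass
  rw [(isGreatest_of_max hd hD h1 h2).csSup_eq]
  have h3 : (2 : ℝ) ^ d / (d ! : ℝ) ≠ 0 := by positivity
  field_simp

lemma kappa_pos (hd : 0 < d) :
    0 < Real.pi ^ ((d : ℝ) / 2) / Real.Gamma ((d : ℝ) / 2 + 1) := by
  have := Real.pi_pos
  have h1 : 0 < Real.Gamma ((d : ℝ) / 2 + 1) := Real.Gamma_pos_of_pos (by positivity)
  positivity

lemma mass_ellipsoid (hd : 0 < d)
    (T : EuclideanSpace ℝ (Fin d) ≃ₗ[ℝ] EuclideanSpace ℝ (Fin d)) :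
    mass (T '' closedBall 0 1) = Real.pi ^ ((d : ℝ) / 2) / Real.Gamma ((d : ℝ) / 2 + 1) := by
  set δ : ℝ := |LinearMap.det (T : EuclideanSpace ℝ (Fin d) →ₗ[ℝ] EuclideanSpace ℝ (Fin d))| with hδ
  have hδ0 : 0 < δ := abs_pos.2 (LinearEquiv.isUnit_det' T).ne_zero
  rw [mass_eq hd hδ0]
  · have h1 : volume (T '' closedBall (0 : EuclideanSpace ℝ (Fin d)) 1) =
        ENNReal.ofReal δ * volume (closedBall (0 : EuclideanSpace ℝ (Fin d)) 1) :=
      Measure.addHaar_image_linearMap volume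
        (T : EuclideanSpace ℝ (Fin d) →ₗ[ℝ] EuclideanSpace ℝ (Fin d)) _
    rw [h1, volume_ball_one hd, ← ENNReal.ofReal_mul hδ0.le,
      ENNReal.toReal_ofReal (mul_nonneg hδ0.le (kappa_pos hd).le)]
    field_simp
  · intro v hv
    choose w hw hwv using hv
    have h1 : v = fun i => T (w i) := by ext1 i; exact (hwv i).symm
    rw [h1, om_map, abs_mul, ← hδ]
    have := om_le_one w hw
    nlinarith
  · refine ⟨fun i => T (EuclideanSpace.basisFun (Fin d) ℝ i), fun i => ⟨_, ?_, rfl⟩, ?_⟩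
    · rw [mem_closedBall_zero_iff, OrthonormalBasis.norm_eq_one]
    · rw [om_map, om_std, mul_one]

/-- **Gromov's mass.** Let `d ≥ 2`. For an `o`-symmetric convex body `M` in `ℝᵈ` the maximal volume
of an inscribed cross-polytope exists; the largest value of Gromov's mass of `M` over all such `M`
is `π ^ (d/2) / Γ (d/2 + 1)`, the volume of the Euclidean unit ball; and it is attained exactly by
the ellipsoids (the images of the Euclidean unit ball under invertible linear maps). -/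
theorem result (d : ℕ) (hd : 2 ≤ d) :
    (∀ M : Set (EuclideanSpace ℝ (Fin d)), IsSymmBody M →
      IsGreatest (crossVolumes M) (sSup (crossVolumes M))) ∧
    IsGreatest {t : ℝ | ∃ M : Set (EuclideanSpace ℝ (Fin d)), IsSymmBody M ∧ mass M = t}
      (Real.pi ^ ((d : ℝ) / 2) / Real.Gamma ((d : ℝ) / 2 + 1)) ∧
    ∀ M : Set (EuclideanSpace ℝ (Fin d)), IsSymmBody M →
      (mass M = Real.pi ^ ((d : ℝ) / 2) / Real.Gamma ((d : ℝ) / 2 + 1) ↔
        ∃ T : EuclideanSpace ℝ (Fin d) ≃ₗ[ℝ] EuclideanSpace ℝ (Fin d),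
          M = T '' closedBall 0 1) := by
  have hd0 : 0 < d := by omega
  have hκ := kappa_pos hd0
  refine ⟨?_, ⟨?_, ?_⟩, ?_⟩
  · intro M hM
    obtain ⟨D, hD, h1, h2⟩ := exists_max hd0 hM
    have h3 := isGreatest_of_max hd0 hD h1 h2
    rw [h3.csSup_eq]
    exact h3
  · refine ⟨closedBall 0 1, ⟨isCompact_closedBall 0 1, convex_closedBall 0 1, ?_, ?_⟩, ?_⟩
    · exact ⟨0, by
        rw [interior_closedBall _ one_ne_zero]; simp⟩
    · intro x hx
      rw [mem_closedBall_zero_iff] at hx ⊢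
      rwa [norm_neg]
    · have h1 := mass_ellipsoid hd0 (LinearEquiv.refl ℝ (EuclideanSpace ℝ (Fin d)))
      have h2 : (LinearEquiv.refl ℝ (EuclideanSpace ℝ (Fin d))) ''
          closedBall (0 : EuclideanSpace ℝ (Fin d)) 1 = closedBall 0 1 := by
        ext x; simp
      rwa [h2] at h1
  · rintro t ⟨M, hM, rfl⟩
    obtain ⟨D, hD, h1, h2⟩ := exists_max hd0 hM
    rw [mass_eq hd0 hD h1 h2, div_le_iff₀ hD]
    have h3 := vol_le hM.compact hM.convex hM.interior_nonempty h1
    rw [volume_ball_one hd0, ← ENNReal.ofReal_mul hD.le] at h3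
    have h4 := ENNReal.toReal_mono ENNReal.ofReal_ne_top h3
    rw [ENNReal.toReal_ofReal (by positivity)] at h4
    linarith
  · intro M hM
    constructor
    · intro h
      obtain ⟨D, hD, h1, h2⟩ := exists_max hd0 hM
      rw [mass_eq hd0 hD h1 h2, div_eq_iff hD.ne'] at h
      have hext : Ext M D := by
        refine ⟨hM.compact, hM.convex, hM.interior_nonempty, hM.neg_mem, h1, ?_⟩
        rw [volume_ball_one hd0, ← ENNReal.ofReal_mul hD.le, mul_comm D, ← h,
          ENNReal.ofReal_toReal hM.compact.measure_lt_top.ne]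
      exact ext_ellipsoid hext hd
    · rintro ⟨T, rfl⟩
      exact mass_ellipsoid hd0 T

end Pool.Agent.Results.MP_77d991_gt.MassSup
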